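import Pool.Agent.Lib.MP_4d0379_lc.Rep

/-! Switching levels, windows and the invariance of names. -/

namespace Pool.Agent.Lib.MP_a1e814_lc.Sh

open Finset
open scoped BigOperators

/-- cells with geometric weights -/
abbrev Cc (n b : ℕ) := Σ l : Fin n, Fin (b ^ (2 * (n - 1 - l)))

/-- the sample of one position -/
abbrev Sm (n b : ℕ) := Cc n b × Fin (b + 1)

variable {n b k : ℕ} {A B O D V : Type}

/-- the level of a sample -/
def lev (s : Sm n b) : ℕ := (s.1.1 : ℕ) + if s.2 = 0 then 1 else 0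

theorem lev_le (s : Sm n b) : lev s ≤ n := by
  have := s.1.1.2
  unfold lev
  split_ifs <;> omega

/-- the level of a sample, bounded -/
def lv (s : Sm n b) : Fin (n + 1) := ⟨lev s, Nat.lt_succ_of_le (lev_le s)⟩

theorem cc_ne (hn : 0 < n) (hb : 0 < b) : Nonempty (Cc n b) := ⟨⟨⟨0, hn⟩, ⟨0, pow_pos hb _⟩⟩⟩

/-- what window `j` sees -/
def tr (a0 : A) (b0 : B) (d : Fin k → B → A) (τ : Fin k → Fin (n + 1)) (j : Fin n)
    (x : Fin k → B) : Fin k → B × A :=
  fun i => if (j : ℕ) < τ i then (x i, a0) else (b0, d i (x i))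

/-- the small labels of an entry of window `j` -/
def dn (d : Fin k → B → A) (τ : Fin k → Fin (n + 1)) (j : Fin n) (y : Fin k → B × A) :
    Fin k → A :=
  fun i => if (j : ℕ) < τ i then d i (y i).1 else (y i).2

theorem dn_tr (a0 : A) (b0 : B) (d : Fin k → B → A) (τ : Fin k → Fin (n + 1)) (j : Fin n)
    (x : Fin k → B) : dn d τ j (tr a0 b0 d τ j x) = fun i => d i (x i) := by
  funext i
  unfold dn tr
  split_ifs <;> rfl

/-- the value depends on the name only -/
def Inv {R : Type} (v : O → D → V) (Φ : (Fin k → O × D) → (Fin k → Fin (n + 1)) → R) : Prop :=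
  ∀ u u' τ, (∀ i, u i = u' i ∨ ((τ i : ℕ) = 0 ∧ (u i).1 = (u' i).1) ∨
    ((τ i : ℕ) = n ∧ v (u i).1 (u i).2 = v (u' i).1 (u' i).2)) → Φ u τ = Φ u' τ

end Pool.Agent.Lib.MP_a1e814_lc.Sh
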