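import Pool.Agent.Lib.MP_a1e814_lc.Sh.Snd
import Pool.Agent.Lib.MP_a1e814_lc.Tab

/-! The two terminal instance of a label cover instance, and hardness for every constant. -/

set_option linter.unusedSectionVars false

namespace Pool.Agent.Lib.MP_a1e814_lc.Sh

open Finset Pool.Agent.Lib.Complexity Pool.Agent.Lib.MP_4d0379_lc Kh N68a2faeb N487b59b3
open scoped BigOperators

/-- the name of one position -/
def nm1 {V : Type} (v : ℕ → ℕ → V) (n l ω i : ℕ) : ℕ ⊕ (ℕ × ℕ) ⊕ V :=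
  if l = 0 then .inl ω else if l = n then .inr (.inr (v ω i)) else .inr (.inl (ω, i))

theorem pt_nm1 {α β : Type} [Enc α] [Enc β] (G : LC α) (n l : ℕ) {a : β → α} {ω i : β → ℕ}
    (ha : PT a) (hω : PT ω) (hi : PT i) : PT fun z => nm1 (G.v (a z)) n l (ω z) (i z) := by
  unfold nm1
  split_ifs
  · exact hω.inl
  · exact (G.pv.comp (f := fun z => (a z, ω z, i z)) (by fun_prop)).inr.inr
  · exact (hω.prodMk hi).inl.inr

open Classical in
theorem tgapE_lc {α : Type} [Enc α] {Yes No : α → Prop} (h : ∀ γ > 0, LCGap Yes No γ) {δ : ℝ}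
    (hδ : 0 < δ) : ∃ g K : ℝ, 0 < g ∧ 0 ≤ K ∧ ∀ ε : ℝ, 0 < ε → TGapE Yes No ε (g / 8) (g * δ) K := by
  obtain ⟨n, b, hn, hb, γ, γ0, hs⟩ := snd hδ
  obtain ⟨G, hG⟩ := h γ γ0
  obtain ⟨a0⟩ := G.nA
  obtain ⟨b0⟩ := G.nB
  obtain ⟨k, t, ht, hs⟩ := hs G.A G.B a0 b0
  have := cc_ne hn hb
  have : Nonempty (Fin n) := ⟨⟨0, hn⟩⟩
  obtain ⟨g, K, g0, K0, key⟩ := Tab.tgapE_tab (Fin k → Fin (n + 1)) (Fin k → Sm n b) (Fin n)
    (Fin k → G.B) (Fin k → G.B × G.A) ht fun ξ i => lv (ξ i)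
  refine ⟨g, K, g0, K0, fun ε hε => ?_⟩
  have pM := G.pM
  have pD := G.pD
  have pu : ∀ i : Fin k, PT fun z : α × (Fin k → ℕ) => z.2 i := fun i =>
    PT.apply (f := fun z : α × (Fin k → ℕ) => z.2) (by fun_prop) i
  have q1 : ∀ i : Fin k, PT fun z : α × (Fin k → ℕ) => z.2 i / G.D z.1 := fun i => by
    have := pu i
    fun_prop
  have q2 : ∀ i : Fin k, PT fun z : α × (Fin k → ℕ) => z.2 i % G.D z.1 := fun i => by
    have := pu i
    fun_prop
  have e2 : ε = 2 * (ε / 2) := by ring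
  rw [e2]
  refine key (Nm := (Fin k → Fin (n + 1)) × (Fin k → ℕ ⊕ (ℕ × ℕ) ⊕ G.V))
    (Dt := Fin k → G.B → G.A) (k := k) (fun a => G.M a * G.D a)
    (fun a u τ => (τ, fun i => nm1 (G.v a) n (τ i) (u i / G.D a) (u i % G.D a)))
    (fun a u i => G.π a (u i / G.D a) (u i % G.D a)) (fun _ => Set.univ)
    (fun e τ j x => tr a0 b0 e τ j x) (by fun_prop)
    (fun τ => (PT.const τ).prodMk (PT.pi fun i => pt_nm1 G n (τ i) (by fun_prop) (q1 i) (q2 i)))
    (PT.pi fun i => G.pπ.comp (f := fun z : α × (Fin k → ℕ) =>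
      (z.1, z.2 i / G.D z.1, z.2 i % G.D z.1)) ((PT.fst PT.id).prodMk ((q1 i).prodMk (q2 i))))
    (fun a => Nat.mul_pos (G.hM a) (G.hD a)) (fun a ha => ?_) fun a ha Φ => ?_
  · obtain ⟨σ, s, hc⟩ := (hG a).1 ha
    let big : ℕ ⊕ (ℕ × ℕ) ⊕ G.V → G.B :=
      Sum.elim (fun _ => b0) (Sum.elim (fun e => σ (G.v a e.1 e.2)) σ)
    let sml : ℕ ⊕ (ℕ × ℕ) ⊕ G.V → G.A :=
      Sum.elim (fun ω => if h : ω < G.M a then s ⟨ω, h⟩ else a0)
        (Sum.elim (fun e => G.π a e.1 e.2 (σ (G.v a e.1 e.2))) fun _ => a0)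
    refine ⟨fun w j i => if (j : ℕ) < w.1 i then (big (w.2 i), a0) else (b0, sml (w.2 i)), ?_⟩
    have : Nonempty (Fin (G.M a * G.D a)) := ⟨⟨0, Nat.mul_pos (G.hM a) (G.hD a)⟩⟩
    refine expect_le univ_nonempty fun u _ => ?_
    rw [if_pos]
    · positivity
    refine ⟨fun i => σ (G.v a (u i / G.D a) (u i % G.D a)), Set.mem_univ _, fun τ j => ?_⟩
    funext i
    have j1 := j.2
    simp only [tr, nm1]
    by_cases h1 : (j : ℕ) < τ i
    · rw [if_pos h1, if_pos h1, if_neg (by omega)]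
      split_ifs <;> rfl
    · rw [if_neg h1, if_neg h1]
      by_cases h2 : (τ i : ℕ) = 0
      · rw [if_pos h2]
        have h3 := hc (finProdFinEquiv.symm (u i)).1 (finProdFinEquiv.symm (u i)).2
        have h4 : (u i : ℕ) / G.D a < G.M a := (finProdFinEquiv.symm (u i)).1.2
        simp only [sml, Sum.elim_inl, dif_pos h4]
        exact congrArg _ h3
      · rw [if_neg h2, if_neg (by omega)]
        rfl
  · have h1 := hs (Fin (G.M a)) (Fin (G.D a)) G.V (G.vv a) (G.ππ a) ((hG a).2 ha)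
      (fun u τ => Φ (τ, fun i => nm1 (G.v a) n (τ i) (u i).1 (u i).2))
      (fun u => Tab.Rel2 t Set.univ (fun τ j x => tr a0 b0 (fun i => G.π a (u i).1 (u i).2) τ j x)
        fun τ => Φ (τ, fun i => nm1 (G.v a) n (τ i) (u i).1 (u i).2))
      (fun u u' τ e => by
        refine congrArg (fun w => Φ (τ, w)) (funext fun i => ?_)
        unfold nm1
        rcases e i with e | e | e
        · rw [e]
        · rw [if_pos e.1, if_pos e.1, e.2]
        · have e3 : G.v a (u i).1 (u i).2 = G.v a (u' i).1 (u' i).2 := e.2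
          have e4 : (τ i : ℕ) ≠ 0 := by omega
          rw [if_neg e4, if_neg e4, if_pos e.1, if_pos e.1, e3])
      (fun u hu τ τ' c c' μ hc hc' e => hu τ τ' c c' μ hc hc' fun x _ => e x)
    rw [Fintype.card_fin, mul_assoc]
    refine le_trans (le_of_eq ?_) h1
    exact Fintype.expect_equiv (Equiv.piCongrRight fun _ => finProdFinEquiv.symm) _ _ fun u => by
      congr

/-- no constant factor approximation unless the classes coincide -/
theorem every (C : ℝ) (hC : 0 < C) (alg : Inst → List ℕ) (h1 : IsPolyTime alg)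
    (h2 : Approximates C alg) : P = NP := by
  refine finalE hC (fun L hL => ?_) alg h1 h2
  obtain ⟨ε, e0, e1, hs⟩ := satGap
  obtain ⟨g, K, g0, K0, h⟩ := tgapE_lc (fun δ hδ => ((hs L hL).lc (by norm_num)).rep (by positivity)
    (by rw [div_le_one (by positivity)]; push_cast; linarith) hδ)
    (show 0 < 1 / (16 * C) by positivity)
  refine ⟨_, _, K, by positivity, K0, ?_, h⟩
  have : C * (g * (1 / (16 * C))) = g / 16 := by field_simp
  linarith

end Pool.Agent.Lib.MP_a1e814_lc.Sh
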