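import Pool.Agent.Lib.MP_a1e814_lc.Sh.Defs
import Pool.Agent.Lib.MP_a1e814_lc.Mc

/-! Mixing of functions of the levels. -/

namespace Pool.Agent.Lib.MP_a1e814_lc.Sh

open Finset Function
open scoped BigOperators

theorem mc_pi {ι X Y : Type} [Fintype ι] [DecidableEq ι] [Fintype X] [Fintype Y]
    (g : (ι → X × Y) → ℝ) : 𝔼 x, g x = 𝔼 p : ι → X, 𝔼 q : ι → Y, g fun i => (p i, q i) := by
  rw [← Mc.ex_prod (fun p : (ι → X) × (ι → Y) => g fun i => (p.1 i, p.2 i))]
  exact Fintype.expect_equiv (Equiv.arrowProdEquivProdArrow ι (fun _ => X) fun _ => Y) _ _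
    fun _ => rfl

theorem mc_card (n b l : ℕ) : #{c : Cc n b | (c.1 : ℕ) = l}
    = if l < n then b ^ (2 * (n - 1 - l)) else 0 := by
  rw [card_filter, Fintype.sum_sigma]
  dsimp only
  split_ifs with h
  · rw [sum_eq_single ⟨l, h⟩]
    · simp
    · intro x _ hx
      exact sum_eq_zero fun _ _ => if_neg fun e => hx (Fin.ext e)
    · simp
  · exact sum_eq_zero fun x _ => sum_eq_zero fun _ _ => if_neg fun e => h (by have := x.2; omega)

theorem mc_geo (n b l : ℕ) :
    b ^ 2 * #{c : Cc n b | (c.1 : ℕ) = l + 1} ≤ #{c : Cc n b | (c.1 : ℕ) = l} := by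
  rw [mc_card, mc_card]
  split_ifs with h1 h2
  · rw [← pow_add]
    exact le_of_eq (congrArg _ (by omega))
  · omega
  · simp
  · simp

theorem mc {n b k : ℕ} {D : Type} [Fintype D] [Nonempty D] (hn : 0 < n) (hb : 0 < b)
    (f : (Fin k → Sm n b × D) → ℝ)
    (hf : ∀ s s' : Fin k → Sm n b × D, (∀ i, lev (s i).1 = lev (s' i).1 ∧
      (lev (s i).1 ≠ 0 → (s i).2 = (s' i).2)) → f s = f s') :
    𝔼 c : Fin k → Cc n b, 𝔼 d : Fin k → D,
      (𝔼 m : Fin k → Fin (b + 1), f fun i => ((c i, m i), d i)) ^ 2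
      ≤ 22 / b * 𝔼 s, f s ^ 2 + (𝔼 s, f s) ^ 2 := by
  have := cc_ne hn hb
  have e0 : ∀ g : (Fin k → Sm n b × D) → ℝ, 𝔼 s, g s = 𝔼 c : Fin k → Cc n b, 𝔼 d : Fin k → D,
      𝔼 m : Fin k → Fin (b + 1), g fun i => ((c i, m i), d i) := fun g => by
    rw [mc_pi g, mc_pi]
    exact expect_congr rfl fun c _ => expect_comm _ _ _
  rw [e0 f, e0 fun s => f s ^ 2]
  have b0 : (0 : ℝ) < b := by exact_mod_cast hb
  rcases le_or_gt 22 b with h | h
  · have ex : ∀ l : ℕ, ∃ s : Sm n b, (∃ s' : Sm n b, lev s' = l) → lev s = l := fun l => by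
      by_cases h : ∃ s' : Sm n b, lev s' = l
      · obtain ⟨s, hs⟩ := h
        exact ⟨s, fun _ => hs⟩
      · exact ⟨Classical.arbitrary _, fun h' => (h h').elim⟩
    choose rep hrep using ex
    have r0 : lev (rep 0) = 0 := hrep 0 ⟨(⟨⟨0, hn⟩, ⟨0, pow_pos hb _⟩⟩, Fin.last b), by
      have : Fin.last b ≠ 0 := fun e => by
        have := congrArg Fin.val e
        simp at this
        omega
      simp [lev, this]⟩
    have key := Mc.mix h (cell := fun c : Cc n b => (c.1 : ℕ)) (mc_geo n b)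
      (fun x : Fin k → ℕ × D => f fun i => (rep (x i).1, (x i).2)) fun x j i i' =>
        hf _ _ fun l => by
          by_cases e : l = j
          · subst e
            simp [r0]
          · simp [update_of_ne e]
    have e1 : ∀ (c : Fin k → Cc n b) (d : Fin k → D) (m : Fin k → Fin (b + 1)),
        (f fun i => (rep (((c i).1 : ℕ) + if m i = 0 then 1 else 0), d i))
          = f fun i => ((c i, m i), d i) := fun c d m =>
      hf _ _ fun i => ⟨hrep _ ⟨(c i, m i), rfl⟩, fun _ => rfl⟩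
    simp only [mc_pi (X := Cc n b) (Y := D), e1] at key
    exact key
  · have h1 : (1 : ℝ) ≤ 22 / b := by
      rw [le_div_iff₀ b0, one_mul]
      exact_mod_cast h.le
    have h2 := expect_le_expect fun (c : Fin k → Cc n b) (_ : c ∈ univ) =>
      expect_le_expect fun (d : Fin k → D) (_ : d ∈ univ) =>
        Mc.sq_ex fun m : Fin k → Fin (b + 1) => f fun i => ((c i, m i), d i)
    have h3 : 0 ≤ 𝔼 c : Fin k → Cc n b, 𝔼 d : Fin k → D,
        𝔼 m : Fin k → Fin (b + 1), (f fun i => ((c i, m i), d i)) ^ 2 :=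
      expect_nonneg fun _ _ => expect_nonneg fun _ _ => expect_nonneg fun _ _ => sq_nonneg _
    have h4 := mul_le_mul_of_nonneg_right h1 h3
    have h5 := sq_nonneg (𝔼 c : Fin k → Cc n b, 𝔼 d : Fin k → D,
      𝔼 m : Fin k → Fin (b + 1), f fun i => ((c i, m i), d i))
    linarith

end Pool.Agent.Lib.MP_a1e814_lc.Sh
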