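import Pool.Agent.Lib.MP_a1e814_lc.Sh.Top
import Pool.Agent.Lib.MP_a1e814_lc.E.Cfg
import Pool.Agent.Lib.MP_a1e814_lc.Rd
import Pool.Agent.Lib.MP_a1e814_lc.Dec2
import Pool.Agent.Lib.MP_a1e814_lc.Mc

/-! Soundness: a large spread on clean tuples gives strategies for the label cover. -/

namespace Pool.Agent.Lib.MP_a1e814_lc.Sh

open Finset Function Pool.Agent.Lib.MP_4d0379_lc Kh
open scoped BigOperators

theorem ex_pair {X Y : Type} [Fintype X] [Fintype Y] (g : X × Y → ℝ) :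
    𝔼 s, g s = 𝔼 x, 𝔼 y, g (x, y) := by
  rw [← expect_product', univ_product_univ]

theorem ex_pi {ι X Y : Type} [Fintype ι] [DecidableEq ι] [Fintype X] [Fintype Y]
    (g : (ι → X × Y) → ℝ) : 𝔼 s, g s = 𝔼 x : ι → X, 𝔼 y : ι → Y, g fun i => (x i, y i) := by
  rw [← expect_product', univ_product_univ]
  exact Fintype.expect_equiv (Equiv.arrowProdEquivProdArrow ι (fun _ => X) fun _ => Y) _ _
    fun _ => rfl

theorem sq_sum_le {Z : Type} [Fintype Z] {f : Z → ℝ} (h0 : ∀ z, 0 ≤ f z) (h1 : ∑ z, f z ≤ 1) :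
    ∑ z, f z ^ 2 ≤ 1 :=
  (sum_sq_le_sq_sum_of_nonneg fun z _ => h0 z).trans
    (pow_le_one₀ (sum_nonneg fun z _ => h0 z) h1)

theorem card_cell (n b l : ℕ) :
    #{c : Cc n b | (c.1 : ℕ) = l} = if l < n then b ^ (2 * (n - 1 - l)) else 0 := by
  rw [card_filter, Fintype.sum_sigma]
  split_ifs with h
  · rw [sum_eq_single ⟨l, h⟩ (fun j _ hj => by simp [Fin.val_ne_of_ne hj]) (by simp)]
    simp
  · exact sum_eq_zero fun j _ => by
      have : (j : ℕ) ≠ l := by have := j.2; omega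
      simp [this]

theorem cell_le (n b l : ℕ) :
    b ^ 2 * #{c : Cc n b | (c.1 : ℕ) = l + 1} ≤ #{c : Cc n b | (c.1 : ℕ) = l} := by
  rw [card_cell, card_cell]
  split_ifs with h1 h2
  · rw [← pow_add]
    exact le_of_eq (by congr 1; omega)
  · omega
  · simp
  · simp

theorem mc2 {n b k : ℕ} {D : Type} [Fintype D] [Nonempty D] (hn : 0 < n) (hb : 22 ≤ b)
    (f : (Fin k → Fin (n + 1)) → (Fin k → D) → ℝ)
    (hf : ∀ τ d d', (∀ i, (τ i : ℕ) ≠ 0 → d i = d' i) → f τ d = f τ d') :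
    𝔼 c : Fin k → Cc n b, 𝔼 d : Fin k → D,
      (𝔼 m : Fin k → Fin (b + 1), f (fun i => lv (c i, m i)) d) ^ 2
      ≤ 22 / b * (𝔼 ξ : Fin k → Sm n b, 𝔼 d, f (fun i => lv (ξ i)) d ^ 2)
        + (𝔼 ξ : Fin k → Sm n b, 𝔼 d, f (fun i => lv (ξ i)) d) ^ 2 := by
  have := cc_ne hn (show 0 < b by omega)
  have h := Mc.mix hb (cell_le n b) (fun x : Fin k → ℕ × D =>
    f (fun i => ⟨min (x i).1 n, Nat.lt_succ_of_le (min_le_right _ _)⟩) fun i => (x i).2)
    fun x j i i' => by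
      have e : ∀ l, (update x j (0, i) l).1 = (update x j (0, i') l).1 := fun l => by
        by_cases hl : l = j
        · subst hl; simp
        · rw [update_of_ne hl, update_of_ne hl]
      simp only [e]
      refine hf _ _ _ fun l h0 => ?_
      by_cases hl : l = j
      · subst hl; simp at h0
      · rw [update_of_ne hl, update_of_ne hl]
  have e : ∀ (c : Cc n b) (m : Fin (b + 1)), (⟨min ((c.1 : ℕ) + if m = 0 then 1 else 0) n,
      Nat.lt_succ_of_le (min_le_right _ _)⟩ : Fin (n + 1)) = lv (c, m) :=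
    fun c m => Fin.ext (min_eq_left (lev_le (c, m)))
  simp only [e] at h
  have r : ∀ g : (Fin k → Sm n b) → (Fin k → D) → ℝ, 𝔼 ξ, 𝔼 d, g ξ d = 𝔼 a : Fin k → Cc n b × D,
      𝔼 m : Fin k → Fin (b + 1), g (fun i => ((a i).1, m i)) fun i => (a i).2 := fun g => by
    rw [ex_pi, ex_pi]
    exact expect_congr rfl fun c _ => expect_comm _ _ _
  rw [r, r]
  exact le_trans (le_of_eq (ex_pi fun a : Fin k → Cc n b × D => (𝔼 m : Fin k → Fin (b + 1),
    f (fun i => lv ((a i).1, m i)) fun i => (a i).2) ^ 2).symm) h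

section

variable {n b k t : ℕ} {A B O D V : Type} [Fintype A] [DecidableEq A] [Fintype B] [DecidableEq B]
  [Fintype O] [Nonempty O] [Fintype D] [Nonempty D] {v : O → D → V} {π : O → D → B → A}
  {Φ : (Fin k → O × D) → (Fin k → Fin (n + 1)) → (Fin n × (Fin k → B × A) → ℕ) → ℝ}

/-- the energies of the small labels -/
noncomputable def Fz (t : ℕ) (π : O → D → B → A)
    (Φ : (Fin k → O × D) → (Fin k → Fin (n + 1)) → (Fin n × (Fin k → B × A) → ℕ) → ℝ)
    (u : Fin k → O × D) (τ : Fin k → Fin (n + 1)) (z : Fin k → A) : ℝ :=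
  FF t (fun p => dn (fun i => π (u i).1 (u i).2) τ p.1 p.2) (Φ u τ) z

/-- their means for given small questions -/
noncomputable def Fb (t b : ℕ) (π : O → D → B → A)
    (Φ : (Fin k → O × D) → (Fin k → Fin (n + 1)) → (Fin n × (Fin k → B × A) → ℕ) → ℝ)
    (o : Fin k → O) (z : Fin k → A) : ℝ :=
  𝔼 ξ : Fin k → Sm n b, 𝔼 d : Fin k → D, Fz t π Φ (fun i => (o i, d i)) (fun i => lv (ξ i)) z

omit [Fintype O] [Nonempty O] [Fintype D] [Nonempty D] in
theorem Fz_nonneg (u : Fin k → O × D) (ξ : Fin k → Fin (n + 1)) (z : Fin k → A) :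
    0 ≤ Fz t π Φ u ξ z := FF_nonneg _ _ _

omit [Fintype O] [Nonempty O] [Fintype D] [Nonempty D] in
theorem Fz_sum (u : Fin k → O × D) (ξ : Fin k → Fin (n + 1)) :
    ∑ z, Fz t π Φ u ξ z ≤ 1 :=
  sum_FF_le _ _

omit [Fintype O] [Nonempty O] [Fintype D] [Nonempty D] in
theorem Fz_tame (hI : Inv v Φ) (o : Fin k → O) (z : Fin k → A) (τ : Fin k → Fin (n + 1))
    (d d' : Fin k → D) (h : ∀ i, (τ i : ℕ) ≠ 0 → d i = d' i) :
    Fz t π Φ (fun i => (o i, d i)) τ z = Fz t π Φ (fun i => (o i, d' i)) τ z := by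
  unfold Fz
  rw [hI (fun i => (o i, d i)) (fun i => (o i, d' i)) _ fun i => ?_]
  · congr 1
    funext p i
    unfold dn
    split_ifs with hp
    · simp only [h i (by omega)]
    · rfl
  · by_cases h0 : (τ i : ℕ) = 0
    · exact Or.inr (Or.inl ⟨h0, rfl⟩)
    · exact Or.inl (by rw [h i h0])

omit [Nonempty O] in
/-- the averaging step -/
theorem mix (hn : 0 < n) (hb : 22 ≤ b) (hI : Inv v Φ) :
    𝔼 u : Fin k → O × D, 𝔼 c : Fin k → Cc n b,
      ∑ z, (𝔼 m : Fin k → Fin (b + 1), Fz t π Φ u (fun i => lv (c i, m i)) z) ^ 2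
      ≤ 𝔼 o : Fin k → O, (22 / b + ∑ z, Fb t b π Φ o z ^ 2) := by
  have := cc_ne hn (show 0 < b by omega)
  rw [ex_pi]
  refine expect_le_expect fun o _ => ?_
  rw [expect_comm]
  simp only [expect_sum_comm]
  refine (sum_le_sum fun z _ => mc2 hn hb
    (fun τ d => Fz t π Φ (fun i => (o i, d i)) τ z) (Fz_tame hI o z)).trans ?_
  rw [sum_add_distrib, ← mul_sum]
  refine add_le_add (mul_le_of_le_one_right (by positivity) ?_) le_rfl
  simp only [← expect_sum_comm]
  exact expect_le univ_nonempty fun _ _ => expect_le univ_nonempty fun _ _ =>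
    sq_sum_le (Fz_nonneg _ _) (Fz_sum _ _)

open Classical in
/-- the decoding step -/
theorem deco {γ : ℝ} (hn : 0 < n) (hb : 0 < b) (hI : Inv v Φ) (h : Sound v π γ) (hγ : 0 ≤ γ) :
    𝔼 o : Fin k → O, ∑ z, Fb t b π Φ o z ^ 2
      ≤ γ + 𝔼 ξ : Fin k → Sm n b, if ∃ i, lev (ξ i) = n then (0 : ℝ) else 1 := by
  have := cc_ne hn hb
  refine le_trans (le_of_eq ?_) ((Dc.dec_all h hγ (fun (ξ : Fin k → Sm n b) i => lev (ξ i) = n)
    (fun ξ u => En t (Φ u fun i => lv (ξ i))) (fun _ _ _ => En_nonneg _ _)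
    (fun _ _ => sum_En_le _) (fun ξ i hi u g g' e => ?_) (Fb t b π Φ)
    (fun o z => expect_nonneg fun _ _ => expect_nonneg fun _ _ => Fz_nonneg _ _ _) (fun o => ?_)
    (fun i p => (p.2 i).1) (fun i z => z i)
    (fun ξ u p => dn (fun i => π (u i).1 (u i).2) (fun i => lv (ξ i)) p.1 p.2)
    fun ξ i hi u p => ?_).trans (le_of_eq (by congr; funext s; congr)))
  · rw [expect_comm, ex_pi]
    refine expect_congr rfl fun o _ => ?_
    rw [expect_comm]
    have e : ∀ z, Fb t b π Φ o z ^ 2 = 𝔼 ξ : Fin k → Sm n b, 𝔼 d : Fin k → D,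
        Fz t π Φ (fun i => (o i, d i)) (fun i => lv (ξ i)) z * Fb t b π Φ o z := fun z => by
      simp only [← expect_mul]
      exact sq _
    simp only [e, ← expect_sum_comm]
    exact expect_congr rfl fun ξ _ => expect_congr rfl fun d _ => sum_FF_mul _ _ _
  · rw [hI (update u i g) (update u i g') _ fun j => ?_]
    by_cases hj : j = i
    · subst hj
      exact Or.inr (Or.inr ⟨hi, by simpa using e⟩)
    · exact Or.inl (by rw [update_of_ne hj, update_of_ne hj])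
  · unfold Fb
    simp only [← expect_sum_comm]
    exact expect_le univ_nonempty fun _ _ => expect_le univ_nonempty fun _ _ => Fz_sum _ _
  · have : (p.1 : ℕ) < lv (ξ i) := by
      have : (lv (ξ i) : ℕ) = lev (ξ i) := rfl
      have := p.1.2
      omega
    exact if_pos this

omit [Fintype O] [Nonempty O] [Fintype D] [Nonempty D] in
/-- a new coin vector of one layer changes one window -/
theorem Fz_move {a0 : A} {b0 : B} {u : Fin k → O × D} (hn : 2 ≤ n)
    (hT : Fintype.card (Fin k → B × A) ^ 2 ≤ 2 ^ t)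
    (h : RelF t Set.univ (tr a0 b0 fun i => π (u i).1 (u i).2) (Φ u)) (c : Fin k → Cc n b)
    (M : Fin n → Fin k → Fin (b + 1)) (l : Fin n) (ω : Fin k → Fin (b + 1)) :
    ∑ z, |Fz t π Φ u (fun i => lv (c i, M (c i).1 i)) z
      - Fz t π Φ u (fun i => lv (c i, update M l ω (c i).1 i)) z| ≤ 10 / √n := by
  have key : ∀ j ∉ ({l} : Finset (Fin n)), ∀ i, ((j : ℕ) < lv (c i, M (c i).1 i) ↔
      (j : ℕ) < lv (c i, update M l ω (c i).1 i)) := fun j hj i => by
    by_cases e : (c i).1 = l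
    · have h1 : (j : ℕ) ≠ (c i).1 := fun h1 => hj (mem_singleton.2 (e ▸ Fin.ext h1))
      simp only [lv, lev]
      split_ifs <;> omega
    · rw [update_of_ne e]
  have := h.move10 hT (by simpa using hn) (τ := fun i => lv (c i, M (c i).1 i))
    (τ' := fun i => lv (c i, update M l ω (c i).1 i)) {l} (by simp)
    (fun j hj x _ => funext fun i => if_congr (key j hj i) rfl rfl)
    (cl := fun p => dn (fun i => π (u i).1 (u i).2) (fun i => lv (c i, M (c i).1 i)) p.1 p.2)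
    (cl' := fun p => dn (fun i => π (u i).1 (u i).2)
      (fun i => lv (c i, update M l ω (c i).1 i)) p.1 p.2)
    fun j hj y => funext fun i => if_congr (key j hj i) rfl rfl
  rwa [Fintype.card_fin] at this

end

open Classical in
theorem snd {δ : ℝ} (hδ : 0 < δ) : ∃ n b : ℕ, 0 < n ∧ 0 < b ∧ ∃ γ > 0, ∀ (A B : Type) [Fintype A]
    [DecidableEq A] [Fintype B] [DecidableEq B] (a0 : A) (b0 : B), ∃ k t : ℕ, 0 < t ∧
    ∀ (O D V : Type) [Fintype O] [Nonempty O] [Fintype D] [Nonempty D] (v : O → D → V)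
      (π : O → D → B → A), Sound v π γ →
    ∀ (Φ : (Fin k → O × D) → (Fin k → Fin (n + 1)) → (Fin n × (Fin k → B × A) → ℕ) → ℝ)
      (cln : (Fin k → O × D) → Prop), Inv v Φ →
      (∀ u, cln u → ∀ τ τ' c c' (μ : ℕ), (∀ y, c y ≤ 2 ^ t) → (∀ y, c' y ≤ 2 ^ t) →
        (∀ x, GG (tr a0 b0 (fun i => π (u i).1 (u i).2) τ) c x
          ≤ GG (tr a0 b0 (fun i => π (u i).1 (u i).2) τ') c' x + μ) →
        Φ u τ c ≤ Φ u τ' c' + μ) →
      𝔼 u, (if cln u then 𝔼 ξ : Fin k → Sm n b,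
        𝔼 w : (Fin n × (Fin k → B × A)) × Fin t → Bool,
        𝔼 w' : (Fin n × (Fin k → B × A)) × Fin t → Bool,
          |Φ u (fun i => lv (ξ i)) (val w) - Φ u (fun i => lv (ξ i)) (val w')| else 0)
        ≤ δ * (2 ^ t * √n) := by
  obtain ⟨c, c0, H1⟩ := coll (half_pos hδ)
  obtain ⟨c1, p1, η, η0, H2⟩ := Rd.one' (show 0 < c * (δ / 2) by positivity)
  obtain ⟨n, hn⟩ := exists_nat_ge ((10 / η) ^ 2 + 2)
  obtain ⟨b, hb⟩ := exists_nat_gt (22 / (c1 / 4) + 22)
  have n2 : 2 ≤ n := by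
    have : (2 : ℝ) ≤ n := by nlinarith [sq_nonneg (10 / η)]
    exact_mod_cast this
  have n0 : 0 < n := by omega
  have nR : (0 : ℝ) < n := by exact_mod_cast n0
  have bR : (0 : ℝ) < b := lt_trans (by positivity) hb
  have b0' : 0 < b := by exact_mod_cast bR
  have q0 : (0 : ℝ) ≤ 22 / (c1 / 4) := by positivity
  have b22 : 22 ≤ b := by exact_mod_cast (show (22 : ℝ) ≤ b by linarith)
  obtain ⟨k, hk⟩ := top n0 b0' (show 0 < c1 / 4 by positivity)
  refine ⟨n, b, n0, b0', c1 / 4, by positivity, fun A B _ _ _ _ a0 b0 => ⟨k,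
    (2 * Fintype.card (Fin k → A) + 1) * Fintype.card (Fin k → B × A) ^ 2 + 1, Nat.succ_pos _,
    fun O D V _ _ _ _ v π hS Φ cln hI hR => ?_⟩⟩
  set t := (2 * Fintype.card (Fin k → A) + 1) * Fintype.card (Fin k → B × A) ^ 2 + 1 with ht
  have hT : (2 * Fintype.card (Fin k → A) + 1) * Fintype.card (Fin k → B × A) ^ 2 ≤ 2 ^ t :=
    (Nat.le_succ _).trans Nat.lt_two_pow_self.le
  have hT' : Fintype.card (Fin k → B × A) ^ 2 ≤ 2 ^ t :=
    le_trans (Nat.le_mul_of_pos_left _ (Nat.succ_pos _)) hT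
  clear_value t
  have := cc_ne n0 b0'
  have : Nonempty (Fin n) := ⟨⟨0, n0⟩⟩
  have hR' : ∀ u, cln u → RelF t Set.univ (tr a0 b0 fun i => π (u i).1 (u i).2) (Φ u) :=
    fun u hu τ τ' c c' μ h1 h2 h3 => hR u hu τ τ' c c' μ h1 h2 fun x => h3 x trivial
  by_contra hc
  have s1 := Rd.markov cln (fun u (ξ : Fin k → Sm n b) => spr t (Φ u fun i => lv (ξ i)))
    (fun u ξ => ∑ z, Fz t π Φ u (fun i => lv (ξ i)) z ^ 2) δ c (2 ^ t * √n) hδ.le c0.le (by positivity)
    (fun u ξ => sum_nonneg fun _ _ => sq_nonneg _)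
    (fun u hu ξ => by simpa using ((hR' u hu).one fun i => lv (ξ i)).spr_le hT')
    (fun u hu ξ hs => H1 _ _ _ _ t _ _ _ _ ((hR' u hu).one fun i => lv (ξ i))
      (fun j j' x _ => by simp only [dn_tr]) hT (by simpa using hs)) (not_le.1 hc).le
  have s2 := H2 ((Fin k → O × D) × (Fin k → Cc n b)) (Fin n) (Fin k → Fin (b + 1)) (Fin k → A)
    (fun d => cln d.1) (fun d M z => Fz t π Φ d.1 (fun i => lv (d.2 i, M (d.2 i).1 i)) z)
    (10 / √n)
    (fun _ _ _ => Fz_nonneg _ _ _) (fun _ _ => Fz_sum _ _)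
    (fun d hd M l ω => Fz_move n2 hT' (hR' _ hd) d.2 M l ω)
    (by
      rw [div_le_iff₀ (Real.sqrt_pos.2 nR), ← div_le_iff₀' η0]
      exact Real.le_sqrt_of_sq_le (by linarith))
    (by
      rw [Fintype.card_fin, div_pow, Real.sq_sqrt nR.le, mul_div_cancel₀ _ nR.ne']
      norm_num)
    (by
      refine s1.trans (le_of_eq ?_)
      rw [ex_pair]
      refine expect_congr rfl fun u _ => ?_
      split_ifs
      · rw [ex_pi]
        exact expect_congr rfl fun c _ => (resh (fun i => (c i).1)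
          fun m => ∑ z, Fz t π Φ u (fun i => lv (c i, m i)) z ^ 2).symm
      · simp)
  have s3 : c1 ≤ 𝔼 u : Fin k → O × D, 𝔼 c : Fin k → Cc n b,
      ∑ z, (𝔼 m : Fin k → Fin (b + 1), Fz t π Φ u (fun i => lv (c i, m i)) z) ^ 2 := by
    refine s2.trans (le_of_eq ?_)
    rw [ex_pair]
    refine expect_congr rfl fun u _ => expect_congr rfl fun c _ => sum_congr rfl fun z _ => ?_
    rw [← resh (fun i => (c i).1) fun m => Fz t π Φ u (fun i => lv (c i, m i)) z]
  have s4 := mix (t := t) (π := π) n0 b22 hI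
  have s5 := deco (t := t) n0 b0' hI hS (by positivity)
  rw [expect_add_distrib, Fintype.expect_const] at s4
  have s6 : 22 / (b : ℝ) ≤ c1 / 4 := by
    have h : 22 / (c1 / 4) ≤ (b : ℝ) := by linarith
    rw [div_le_iff₀ (by positivity)] at h
    rw [div_le_iff₀ bR]
    linarith
  linarith

end Pool.Agent.Lib.MP_a1e814_lc.Sh
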