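import Pool.Agent.Lib.MP_a1e814_lc.Sh.Defs
import Pool.Agent.Lib.MP_a1e814_lc.Dec2

/-! Some position has the top level; reshuffling of the layers. -/

namespace Pool.Agent.Lib.MP_a1e814_lc.Sh

open Finset Pool.Agent.Lib.MP_4d0379_lc
open scoped BigOperators

open Classical in
theorem top {n b : ℕ} {e : ℝ} (hn : 0 < n) (hb : 0 < b) (he : 0 < e) :
    ∃ k, (𝔼 ξ : Fin k → Sm n b, if ∃ i, lev (ξ i) = n then (0 : ℝ) else 1) ≤ e := by
  have := cc_ne hn hb
  let s0 : Sm n b := (⟨⟨n - 1, by omega⟩, ⟨0, pow_pos hb _⟩⟩, 0)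
  have h0 : lev s0 = n := by
    simp only [lev, s0, if_true]
    omega
  have h1 : (𝔼 x : Sm n b, if lev x = n then (0 : ℝ) else 1) < 1 := by
    refine expect_lt (fun x _ => ?_) ⟨s0, mem_univ _, ?_⟩
    · split_ifs <;> norm_num
    · rw [if_pos h0]
      norm_num
  obtain ⟨k, hk⟩ := exists_pow_lt_of_lt_one he h1
  refine ⟨k, ?_⟩
  have h2 := Dc.no_top (ι := Fin k) fun x : Sm n b => lev x = n
  rw [Fintype.card_fin] at h2
  refine le_trans (le_of_eq ?_) hk.le
  convert h2

/-- the same for any decidability instance -/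
theorem top' {n b : ℕ} {e : ℝ} (hn : 0 < n) (hb : 0 < b) (he : 0 < e) :
    ∃ k, ∀ [∀ ξ : Fin k → Sm n b, Decidable (∃ i, lev (ξ i) = n)],
      (𝔼 ξ : Fin k → Sm n b, if ∃ i, lev (ξ i) = n then (0 : ℝ) else 1) ≤ e := by
  obtain ⟨k, hk⟩ := top hn hb he
  refine ⟨k, le_trans (le_of_eq ?_) hk⟩
  convert rfl

theorem resh {n k : ℕ} {R : Type} [Fintype R] [Nonempty R] (f : Fin k → Fin n)
    (g : (Fin k → R) → ℝ) :
    𝔼 M : Fin n → Fin k → R, g (fun i => M (f i) i) = 𝔼 m : Fin k → R, g m := by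
  let e : (Fin n → Fin k → R) × (Fin k → R) → (Fin n → Fin k → R) × (Fin k → R) :=
    fun p => (fun l i => if l = f i then p.2 i else p.1 l i, fun i => p.1 (f i) i)
  have he : Function.Involutive e := fun p => by
    refine Prod.ext (funext fun l => funext fun i => ?_) (funext fun i => ?_)
    · simp only [e]
      split_ifs with h
      · rw [h]
      · rfl
    · simp [e]
  have h1 := Fintype.expect_bijective e he.bijective (fun p => g fun i => p.1 (f i) i)
    (fun p => g p.2) fun _ => rfl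
  rw [expect_prod fun p : (Fin n → Fin k → R) × (Fin k → R) => g fun i => p.1 (f i) i,
    expect_prod fun p : (Fin n → Fin k → R) × (Fin k → R) => g p.2] at h1
  simpa only [Fintype.expect_const] using h1

end Pool.Agent.Lib.MP_a1e814_lc.Sh
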